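import Mathlib
import Pool.Agent.Q124.Lay.Geo

/-!
# Unramified cohomology of degree three for products of varieties over finite fields: statements
-/

set_option autoImplicit false

open CategoryTheory AlgebraicGeometry

namespace Pool.Agent.Q124.UN

open Polynomial Pool.Agent.H914 Pool.Agent.H914.VarClass Pool.Agent.H914.VarClass.Obj
  Pool.Agent.W492.BB Pool.Agent.Q124.Lay

variable {k : Type} [Field k] {𝒱 : VarClass k}

section

variable {C : TheoryData.{0, 0, 0} 𝒱 ℚ} {K : Type} [Field K] (H : WeilTheoryData.{0, 0, 0} C K)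

/-- The intersection number of the cycles `x`, `y` of complementary codimensions on `X`, up to a nonzero
constant depending on `X` only: the value of the orientation at the class of `x · y`. -/
def meet {X : 𝒱.Obj} (x y : C.A X) : K := H.tr X (H.cl (C.mul x y))

/-- Rational and numerical equivalence coincide for the cycles of codimension `c` on `X`, with
rational coefficients. -/
def RatNumIn (X : 𝒱.Obj) (c : ℤ) : Prop :=
  ∀ x : C.A X, C.Deg c x → (∀ y : C.A X, C.Deg (X.dim - c) y → meet H x y = 0) → x = 0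

end

/-- The groups `Ch Y = CH ^ 2 (Y)`, `L Y = H ^ 4 (Y_ét, ℤ(2))` (étale motivic cohomology) and
`U Y = H ^ 3_nr (Y, ℚ/ℤ(2))` of the smooth projective varieties `Y` of the class `𝒱`, with the maps
`CH ^ 2 (Y) → H ^ 4 (Y_ét, ℤ(2)) → H ^ 3_nr (Y, ℚ/ℤ(2))`; the set `cycles Y` of the classes of cycles of
codimension `dim Y - 2` with integral coefficients in the Chow group with rational coefficients, the
class `cls Y x` of `x` in `CH ^ 2 (Y)` in the Chow group with rational coefficients, and the
intersection number `num Y l z` of an element `l` of `H ^ 4 (Y_ét, ℤ(2))` with an integral cycle `z` of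
codimension `dim Y - 2` (the degree of their product in `H ^ (2 dim Y) (Y_ét, ℤ(dim Y))`). -/
structure UnramifiedData (C : TheoryData.{0, 0, 0} 𝒱 ℚ) where
  Ch : 𝒱.Obj → Type
  L : 𝒱.Obj → Type
  U : 𝒱.Obj → Type
  [groupCh : ∀ Y, AddCommGroup (Ch Y)]
  [groupL : ∀ Y, AddCommGroup (L Y)]
  [groupU : ∀ Y, AddCommGroup (U Y)]
  toL : ∀ Y, Ch Y →+ L Y
  toU : ∀ Y, L Y →+ U Y
  cls : ∀ Y, Ch Y →+ C.A Y
  cycles : ∀ Y, Set (C.A Y)
  num : ∀ Y, L Y →+ (C.A Y → ℤ)

attribute [instance] UnramifiedData.groupCh UnramifiedData.groupL UnramifiedData.groupU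

/-- The element `x` of an abelian group has finite order. -/
def IsTor {G : Type} [AddCommGroup G] (x : G) : Prop := ∃ n : ℕ, 0 < n ∧ n • x = 0

section

variable {C : TheoryData.{0, 0, 0} 𝒱 ℚ} {K : Type} [Field K] (H : WeilTheoryData.{0, 0, 0} C K)

/-- The sequence `CH ^ 2 (Y) → H ^ 4 (Y_ét, ℤ(2)) → H ^ 3_nr (Y, ℚ/ℤ(2)) → 0` is exact (`exact`,
`surjective`; Lichtenbaum, Kahn), the last group is a torsion group (`torsion`), and the torsion
subgroup of the second one, a quotient of `H ^ 3 (Y_ét, ℚ/ℤ(2))`, is finite (`finite`;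
Colliot-Thélène, Sansuc and Soulé, and Gros and Suwa for the `p`-primary part), for all varieties `Y`
over a finite field. -/
structure IsSequence (D : UnramifiedData C) : Prop where
  exact : ∀ (Y : 𝒱.Obj) (l : D.L Y), D.toU Y l = 0 → ∃ x, D.toL Y x = l
  surjective : ∀ Y, Function.Surjective (D.toU Y)
  torsion : ∀ (Y : 𝒱.Obj) (u : D.U Y), IsTor u
  finite : ∀ Y, {l : D.L Y | IsTor l}.Finite

/-- The elements of `CH ^ 2 (Y)` have codimension two and those whose class with rational coefficients
vanishes are torsion, and the integral cycles span the rational ones. -/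
structure IsIntegral (D : UnramifiedData C) : Prop where
  cls_deg : ∀ (Y : 𝒱.Obj) (x : D.Ch Y), C.Deg 2 (D.cls Y x)
  cls_torsion : ∀ (Y : 𝒱.Obj) (x : D.Ch Y), D.cls Y x = 0 → IsTor x
  span : ∀ (Y : 𝒱.Obj) (y : C.A Y), C.Deg (Y.dim - 2) y → y ∈ Submodule.span ℚ (D.cycles Y)

/-- The intersection numbers on `H ^ 4 (Y_ét, ℤ(2))` extend those on `CH ^ 2 (Y)`; `κ` is the
normalisation of the orientation of the cohomology theory. -/
def ExtendsNumbers (D : UnramifiedData C) (Y : 𝒱.Obj) : Prop :=
  ∃ κ : K, κ ≠ 0 ∧ ∀ (x : D.Ch Y), ∀ z ∈ D.cycles Y,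
    meet H (D.cls Y x) z = κ * (D.num Y (D.toL Y x) z : ℤ)

/-- The known facts on these groups, for varieties over a finite field: those of `IsSequence`,
`IsIntegral` and `ExtendsNumbers`, and the facts that rational and numerical equivalence coincide for
divisors (`divisors`: by the theorem of Matsusaka, and as the Picard variety has finitely many
rational points) and for zero-cycles (`points`: the group of zero-cycles of degree zero modulo
rational equivalence is finite; Bloch, Kato and Saito, Colliot-Thélène, Sansuc and Soulé). -/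
structure IsUnramified (D : UnramifiedData C) : Prop where
  sequence : IsSequence D
  integral : IsIntegral D
  numbers : ∀ Y, ExtendsNumbers H D Y
  divisors : ∀ Y, RatNumIn H Y 1
  points : ∀ Y, RatNumIn H Y Y.dim

/-- The variety `V` is dominated by `Y`: there are a morphism `g : Y → V` and a cycle `η` on `Y` with
rational coefficients such that `g_* η` is the fundamental class of `V`. This is true for all
surjective morphisms `g`. -/
def Dominates (C : TheoryData.{0, 0, 0} 𝒱 ℚ) (Y V : 𝒱.Obj) : Prop :=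
  ∃ (g : Y ⟶ V) (η : C.A Y), C.down g η = 1

/-- The group `H ^ 3_nr (V, ℚ/ℤ(2))` is finite for all varieties `V` which are dominated by `Y`. -/
def FiniteBelow (D : UnramifiedData C) (Y : 𝒱.Obj) : Prop :=
  ∀ V : 𝒱.Obj, Dominates C Y V → Finite (D.U V)

/-- `A`, `B`, `Z` are as in `IsTripleFor`, `Z` has level at most `e < (n + 1) δ`, and rational and
numerical equivalence coincide for cycles of codimension two on `B × Z`, or
`2 dim Z + n < 4 + ⌊e⌋`. -/
structure IsTimes (δ : ℝ) (q s : ℕ) {I : Type} (f : I → ℤ[X]) (n : ℕ) (e : ℝ) {A B Z : 𝒱.Obj}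
    (πA : A ⟶ A) (πB : B ⟶ B) (πZ : Z ⟶ Z) : Prop where
  product : IsFrobenius C (prodMap πA πZ) (q ^ s)
  triple : IsTripleFor H πA πB πZ n q s f
  level : HasLevelLE H πZ (q ^ s) e
  bound : e < (n + 1) * δ
  cycles : RatNumIn H (B.prod Z) 2 ∨ 2 * Z.dim + n < 4 + ⌊e⌋₊

/-- `δ > 1 / 3`, `A`, `B`, `Z` are as in `IsTripleFor`, with `n = 1`, `Z` has the properties `IsNarrow` and
`HasInverse`, and `Z` has dimension at most two, or rational and numerical equivalence coincide for
cycles of codimension two on `Z`. -/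
structure IsTimesNarrow (δ δ₂ : ℝ) (q s : ℕ) {I : Type} (f : I → ℤ[X]) {A B Z : 𝒱.Obj}
    (πA : A ⟶ A) (πB : B ⟶ B) (πZ : Z ⟶ Z) : Prop where
  product : IsFrobenius C (prodMap πA πZ) (q ^ s)
  triple : IsTripleFor H πA πB πZ 1 q s f
  narrow : IsNarrow H πZ (q ^ s) δ δ₂
  inverse : HasInverse H Z
  bound : 1 < 3 * δ
  cycles : Z.dim ≤ 2 ∨ RatNumIn H Z 2

end

/-- `UnramifiedTheorem δ δ₂ q f`: for the Chow groups `C` with rational coefficients of all classes `𝒱` of
smooth projective varieties over fields `k` with `q ^ s` elements, every Weil cohomology theory `H`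
with coefficients in an algebraically closed field `K` of characteristic zero, and all `D` as in
`IsUnramified`, the group `H ^ 3_nr (V, ℚ/ℤ(2))` is finite for all varieties `V` which are dominated by
`A × Z`, if `A` and `Z` are as in `IsTimes` or as in `IsTimesNarrow`. -/
def UnramifiedTheorem (δ δ₂ : ℝ) (q : ℕ) {I : Type} (f : I → ℤ[X]) : Prop :=
  ∀ (k : Type) [Field k] (𝒱 : VarClass k) (C : TheoryData.{0, 0, 0} 𝒱 ℚ) [IsChow C]
    (K : Type) [Field K] [IsAlgClosed K] [CharZero K] (H : WeilTheoryData.{0, 0, 0} C K)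
    [IsWeil H] (D : UnramifiedData C), IsUnramified H D →
    ∀ (s : ℕ) (A B Z : 𝒱.Obj) (πA : A ⟶ A) (πB : B ⟶ B) (πZ : Z ⟶ Z),
      ((∃ n e, IsTimes H δ q s f n e πA πB πZ) ∨ IsTimesNarrow H δ δ₂ q s f πA πB πZ) →
        FiniteBelow D (A.prod Z)

end Pool.Agent.Q124.UN
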