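import Mathlib
import Pool.Agent.Q124.UN.Defs

/-!
# From numerical equivalence to unramified cohomology
-/

set_option autoImplicit false

open CategoryTheory AlgebraicGeometry

namespace Pool.Agent.Q124.UN

open Polynomial Pool.Agent.H914 Pool.Agent.H914.VarClass Pool.Agent.H914.VarClass.Obj
  Pool.Agent.W492.BB Pool.Agent.Q124.Lay

variable {k : Type} [Field k] {𝒱 : VarClass k} {C : TheoryData.{0, 0, 0} 𝒱 ℚ} {K : Type} [Field K]
  [CharZero K] {H : WeilTheoryData.{0, 0, 0} C K}

/-- `ℚ`-linear functional `y ↦ tr (cl (x y))`, as a statement about spans -/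
theorem tr_eq_zero_of_span (Y : 𝒱.Obj) (x : C.A Y) {S : Set (C.A Y)}
    (h : ∀ z ∈ S, H.tr Y (H.cl (C.mul x z)) = 0) (y : C.A Y) (hy : y ∈ Submodule.span ℚ S) :
    H.tr Y (H.cl (C.mul x y)) = 0 := by
  induction hy using Submodule.span_induction with
  | mem z hz => exact h z hz
  | zero => simp only [TheoryData.mul, mul_zero, map_zero]
  | add a b _ _ ha hb => simp only [TheoryData.mul, mul_add, map_add] at ha hb ⊢; rw [ha, hb, add_zero]
  | smul c a _ ha =>
    have h1 : C.mul x (c • a) = c • C.mul x a := by simp only [TheoryData.mul, mul_smul_comm]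
    have h2 : (c.den : ℤ) • (c • C.mul x a) = c.num • C.mul x a := by
      have h3 : (c.den : ℚ) * c = c.num := by
        rw [mul_comm]; exact Rat.mul_den_eq_num c
      rw [← Int.cast_smul_eq_zsmul ℚ, ← Int.cast_smul_eq_zsmul ℚ, smul_smul]
      congr 1
    have h4 := congrArg (fun t => H.tr Y (H.cl t)) h2
    simp only [map_zsmul] at h4
    rw [ha, smul_zero] at h4
    rw [h1]
    rcases smul_eq_zero.1 h4 with h5 | h5
    · have : (c.den : ℤ) ≠ 0 := by exact_mod_cast c.den_ne_zero
      exact absurd h5 this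
    · exact h5

theorem isTor_of_smul {G : Type} [AddCommGroup G] {x : G} {n : ℕ} (hn : 0 < n) (h : IsTor (n • x)) :
    IsTor x := by
  obtain ⟨m, hm, h1⟩ := h
  exact ⟨m * n, Nat.mul_pos hm hn, by rw [mul_smul]; exact h1⟩

/-- **Finiteness of unramified cohomology.** -/
theorem finite_of_ratNum (hfin : ∀ Y, Module.Finite K (H.A Y)) {D : UnramifiedData C}
    (hD : IsUnramified H D) (Y : 𝒱.Obj) (h : RatNumIn H Y 2) : Finite (D.U Y) := by
  have hfY := hfin Y
  obtain ⟨κ, hκ, hnum⟩ := hD.numbers Y
  -- finitely many cycles span the classes of the integral cycles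
  obtain ⟨T, hTs, hT⟩ : ∃ T : Finset (H.A Y), (T : Set (H.A Y)) ⊆ (fun z => H.cl z) '' D.cycles Y ∧
      Submodule.span K (T : Set (H.A Y)) = Submodule.span K ((fun z => H.cl z) '' D.cycles Y) :=
    Submodule.fg_span_iff_fg_span_finset_subset _ |>.1 (IsNoetherian.noetherian _) |>.imp
      fun T hT => ⟨hT.1, hT.2.symm⟩
  have hpre : ∀ t : T, ∃ z ∈ D.cycles Y, H.cl z = t.1 := fun t => hTs t.2
  choose z hz hzt using hpre
  -- the multiples of an element of `L Y` which come from cycles
  have hmul : ∀ l : D.L Y, ∃ n : ℕ, 0 < n ∧ ∃ x, D.toL Y x = n • l := by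
    intro l
    obtain ⟨n, hn, h1⟩ := hD.sequence.torsion Y (D.toU Y l)
    obtain ⟨x, hx⟩ := hD.sequence.exact Y (n • l) (by rw [map_nsmul]; exact h1)
    exact ⟨n, hn, x, hx⟩
  -- the elements with vanishing intersection numbers are torsion
  have hker : ∀ l : D.L Y, (∀ t : T, D.num Y l (z t) = 0) → IsTor l := by
    intro l hl
    obtain ⟨n, hn, x, hx⟩ := hmul l
    have h1 : ∀ t : T, H.tr Y (H.cl (D.cls Y x) * t.1) = 0 := by
      intro t
      rw [← hzt t, ← map_mul]
      have h2 := hnum x (z t) (hz t)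
      rw [hx, map_nsmul, Pi.smul_apply, hl t, smul_zero, Int.cast_zero, mul_zero] at h2
      exact h2
    have h2 : ∀ w ∈ Submodule.span K ((fun z => H.cl z) '' D.cycles Y), H.tr Y (H.cl (D.cls Y x) * w) = 0 := by
      intro w hw
      rw [← hT] at hw
      induction hw using Submodule.span_induction with
      | mem w hw => exact h1 ⟨w, hw⟩
      | zero => rw [mul_zero, map_zero]
      | add a b _ _ ha hb => rw [mul_add, map_add, ha, hb, add_zero]
      | smul c a _ ha => rw [mul_smul_comm, map_smul, ha, smul_zero]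
    have h3 : D.cls Y x = 0 := by
      refine h _ (hD.integral.cls_deg Y x) fun y hy => ?_
      refine tr_eq_zero_of_span Y _ (fun z hz => ?_) y (hD.integral.span Y y hy)
      have h4 := h2 (H.cl z) (Submodule.subset_span ⟨z, hz, rfl⟩)
      rw [← map_mul] at h4
      exact h4
    obtain ⟨m, hm, h4⟩ := hD.integral.cls_torsion Y x h3
    refine isTor_of_smul hn ⟨m, hm, ?_⟩
    rw [← hx, ← map_nsmul, h4, map_zero]
  -- the group `L Y` is finitely generated
  let φ : D.L Y →ₗ[ℤ] (T → ℤ) :=
    { toFun := fun l t => D.num Y l (z t)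
      map_add' := fun a b => by funext t; simp only [map_add, Pi.add_apply]
      map_smul' := fun c a => by funext t; simp only [map_zsmul, Pi.smul_apply, RingHom.id_apply] }
  have hfinker : Finite (LinearMap.ker φ) := by
    refine Set.Finite.to_subtype ((hD.sequence.finite Y).subset fun l hl => ?_)
    refine hker l fun t => ?_
    have h1 : φ l = 0 := hl
    exact congrFun h1 t
  have hLfg : Module.Finite ℤ (D.L Y) := by
    refine ⟨?_⟩
    refine Submodule.fg_of_fg_map_of_fg_inf_ker φ (IsNoetherian.noetherian _) ?_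
    rw [top_inf_eq]
    exact Module.Finite.iff_fg.1 inferInstance
  -- the group `U Y` is finitely generated and torsion
  have hUfg : Module.Finite ℤ (D.U Y) :=
    Module.Finite.of_surjective (D.toU Y).toIntLinearMap (hD.sequence.surjective Y)
  refine Module.finite_of_fg_torsion (D.U Y) fun u => ?_
  obtain ⟨n, hn, h1⟩ := hD.sequence.torsion Y u
  refine ⟨⟨(n : ℤ), mem_nonZeroDivisors_of_ne_zero (by exact_mod_cast hn.ne')⟩, ?_⟩
  change (n : ℤ) • u = 0
  rw [natCast_zsmul]
  exact h1

end Pool.Agent.Q124.UN
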