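import Mathlib
import Pool.Agent.Q124.UN.Alg
import Pool.Agent.Q124.Lay.Theories

/-!
# Unramified cohomology of degree three for products of varieties over finite fields: proofs
-/

set_option autoImplicit false
set_option linter.unusedSectionVars false

open CategoryTheory AlgebraicGeometry

namespace Pool.Agent.Q124.UN

open Module Polynomial Pool.Agent.H914 Pool.Agent.H914.VarClass Pool.Agent.H914.VarClass.Obj
  Pool.Agent.W492.BB Pool.Agent.W550.Corr Pool.Agent.Q56.CP Pool.Agent.Q124.Lay

open Pool.Agent.Q219.UZ (BoundedAt MomentAt)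

open Pool.Agent.TH133 (IsChowProj IsWeilProj)

section

variable {k : Type} [Field k] {𝒱 : VarClass k} {C : TheoryData.{0, 0, 0} 𝒱 ℚ} {K : Type} [Field K]
  [CharZero K] {H : WeilTheoryData.{0, 0, 0} C K}

/-- descent of the equality of rational and numerical equivalence along dominations -/
theorem ratNum_of_dominates [hC : IsChow C] [hH : IsWeil H] {Y V : 𝒱.Obj} (hd : Dominates C Y V) {c : ℤ}
    (h : RatNumIn H Y c) : RatNumIn H V c := by
  obtain ⟨g, η, hη⟩ := hd
  intro x hx hx'
  have hT := hC.isTheory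
  have h1 : C.up g x = 0 := by
    refine h _ (hT.hasDegrees.pull_mem g hx) fun y hy => ?_
    have h2 : H.tr Y (H.cl (C.mul (C.up g x) y)) = H.tr V (H.cl (C.mul x (C.down g y))) := by
      rw [← hT.hasProjectionFormula.proj_left, hH.isClassMap.cl_push, hH.isOriented.tr_push]
    refine h2.trans ?_
    refine hx' _ ?_
    have h3 := hT.hasDegrees.push_mem g hy
    have h4 : ((Y.dim : ℤ) - c + 1 * (V.dim - Y.dim)) = V.dim - c := by ring
    rw [h4] at h3
    exact h3
  have h2 := hT.hasProjectionFormula.proj_left g η x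
  rw [h1, hη] at h2
  simp only [TheoryData.mul, zero_mul, mul_one, map_zero] at h2
  exact h2.symm

end

theorem unramifiedTheorem {I : Type} {f : I → ℤ[X]} {q : ℕ} {δ δ₂ : ℝ}
    (hB : ∀ s, 0 < s → BoundedAt f q s δ) (hM : ∀ s, 0 < s → MomentAt f q s δ₂) (hδ0 : 0 < δ)
    (hδ1 : δ ≤ 1) (hδ₂ : 0 < δ₂) (hq : 1 < q) : UnramifiedTheorem δ δ₂ q f := by
  intro k _ 𝒱 C _ K _ _ _ H _ D hD s A B Z πA πB πZ hor V hV
  rcases hor with ⟨n, e, hF, h, hlev, he, h0⟩ | ⟨hF, h, hN, hinv, hδ3, h0⟩
  · have h1 := isChowProj h.standard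
    have h2 := isWeilProj h.standard
    refine finite_of_ratNum h.standard.finite hD V (ratNum_of_dominates hV ?_)
    refine (Q219.UZ.Lite.ratNumIn_iff (H := H) (X := A.prod Z) (c := 2)).2 ?_
    refine vanish hB hδ0 hδ1 hq he h hlev (numData_isCorr H) (numData_power H (isFrobeniusH hF)) 2
      fun c' h3 h4 => ?_
    have h5 : c' = 0 ∨ c' = 1 ∨ c' = 2 := by omega
    rcases h5 with rfl | rfl | rfl
    · exact numTriv_zero H _
    · exact (Q219.UZ.Lite.ratNumIn_iff (H := H)).1 (hD.divisors _)
    · rcases h0 with h0 | h0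
      · exact (Q219.UZ.Lite.ratNumIn_iff (H := H)).1 h0
      · omega
  · have h1 := isChowProj h.standard
    have h2 := isWeilProj h.standard
    refine finite_of_ratNum h.standard.finite hD V (ratNum_of_dominates hV ?_)
    refine (Q219.UZ.Lite.ratNumIn_iff (H := H) (X := A.prod Z) (c := 2)).2 ?_
    refine vanish_narrow hB hM hδ0 hδ₂ hδ3 hq h hN hinv (numData_isCorr H)
      (numData_power H (isFrobeniusH hF)) 2 (fun c' h3 h4 => ?_) ?_
    · have h5 : c' = 0 ∨ c' = 1 ∨ c' = 2 := by omega
      rcases h5 with rfl | rfl | rfl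
      · exact numTriv_zero H _
      · exact (Q219.UZ.Lite.ratNumIn_iff (H := H)).1 (hD.divisors _)
      · rcases h0 with h0 | h0
        · have h6 : Z.dim = 2 := by omega
          have h7 := hD.points Z
          rw [h6] at h7
          exact (Q219.UZ.Lite.ratNumIn_iff (H := H)).1 h7
        · exact (Q219.UZ.Lite.ratNumIn_iff (H := H)).1 h0
    · exact (Q219.UZ.Lite.ratNumIn_iff (H := H)).1 (hD.divisors _)

end Pool.Agent.Q124.UN
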